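import Pool.Agent.Helper53.MF.GDefs
import Pool.Agent.Helper93.MF.Lat

set_option autoImplicit false

namespace Pool.Agent.Helper53.MF

open Submodule Module Set

noncomputable section

lemma choose_shift (c h : ℝ) {l n : ℕ} (hl : l ≤ n) (i : ℕ) :
    ∑ k ∈ Finset.range (n + 1), ((k.choose i : ℕ) : ℝ) * ((l.choose k : ℕ) : ℝ) * c ^ (l - k) *
      h ^ (k - i) = ((l.choose i : ℕ) : ℝ) * (c + h) ^ (l - i) := by
  rcases Nat.lt_or_ge l i with hi | hi
  · rw [Nat.choose_eq_zero_of_lt hi]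
    rw [Finset.sum_eq_zero]
    · simp
    · intro k _
      rcases Nat.lt_or_ge k i with hk | hk
      · rw [Nat.choose_eq_zero_of_lt hk]
        simp
      · rw [Nat.choose_eq_zero_of_lt (show l < k by omega)]
        simp
  · have h1 : ∑ k ∈ Finset.range (n + 1), ((k.choose i : ℕ) : ℝ) * ((l.choose k : ℕ) : ℝ) *
        c ^ (l - k) * h ^ (k - i) = ∑ k ∈ Finset.Ico i (l + 1), ((k.choose i : ℕ) : ℝ) *
        ((l.choose k : ℕ) : ℝ) * c ^ (l - k) * h ^ (k - i) := by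
      symm
      apply Finset.sum_subset
      · intro k hk
        rw [Finset.mem_Ico] at hk
        rw [Finset.mem_range]
        omega
      · intro k _ hk
        rw [Finset.mem_Ico] at hk
        rcases Nat.lt_or_ge k i with hk' | hk'
        · rw [Nat.choose_eq_zero_of_lt hk']
          simp
        · rw [Nat.choose_eq_zero_of_lt (show l < k by omega)]
          simp
    rw [h1, Finset.sum_Ico_eq_sum_range, add_comm c h, add_pow, Finset.mul_sum,
      show l + 1 - i = l - i + 1 by omega]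
    refine Finset.sum_congr rfl fun s hs => ?_
    rw [Finset.mem_range] at hs
    have h2 : (l.choose (i + s)) * ((i + s).choose i) = l.choose i * (l - i).choose s := by
      have := Nat.choose_mul (n := l) (k := i + s) (s := i) (by omega)
      rwa [Nat.add_sub_cancel_left] at this
    have h3 : (((i + s).choose i : ℕ) : ℝ) * ((l.choose (i + s) : ℕ) : ℝ) =
        ((l.choose i : ℕ) : ℝ) * (((l - i).choose s : ℕ) : ℝ) := by
      rw [mul_comm]
      exact_mod_cast h2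
    rw [h3, show l - (i + s) = l - i - s by omega, Nat.add_sub_cancel_left]
    ring

theorem tay_shift {n : ℕ} (x : Fin (n + 1) → ℝ) (c h : ℝ) (i : ℕ) :
    tay x (c + h) i = ∑ k ∈ Finset.range (n + 1), ((k.choose i : ℕ) : ℝ) * tay x c k * h ^ (k - i) := by
  have h1 : ∀ k ∈ Finset.range (n + 1), ((k.choose i : ℕ) : ℝ) * tay x c k * h ^ (k - i) =
      ∑ l : Fin (n + 1), x l * (((k.choose i : ℕ) : ℝ) * (((l : ℕ).choose k : ℕ) : ℝ) *
        c ^ ((l : ℕ) - k) * h ^ (k - i)) := by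
    intro k _
    unfold tay
    rw [Finset.mul_sum, Finset.sum_mul]
    refine Finset.sum_congr rfl fun l _ => ?_
    ring
  rw [Finset.sum_congr rfl h1, Finset.sum_comm]
  unfold tay
  refine Finset.sum_congr rfl fun l _ => ?_
  rw [← Finset.mul_sum, choose_shift c h (Nat.lt_succ_iff.1 l.2) i]
  ring

theorem tay_eq_zero {n : ℕ} (x : Fin (n + 1) → ℝ) (c : ℝ) {i : ℕ} (hi : n < i) :
    tay x c i = 0 := by
  unfold tay
  refine Finset.sum_eq_zero fun k _ => ?_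
  rw [Nat.choose_eq_zero_of_lt (by omega)]
  simp

/-- `tay x c 0` is the value of the polynomial -/
theorem tay_zero {n : ℕ} (x : Fin (n + 1) → ℝ) (c : ℝ) :
    tay x c 0 = ∑ k : Fin (n + 1), x k * c ^ (k : ℕ) := by
  unfold tay
  simp

lemma tay_add {n : ℕ} (x y : Fin (n + 1) → ℝ) (c : ℝ) (i : ℕ) :
    tay (x + y) c i = tay x c i + tay y c i := by
  simp [tay, mul_add, add_mul, Finset.sum_add_distrib]

lemma tay_smul {n : ℕ} (r : ℝ) (x : Fin (n + 1) → ℝ) (c : ℝ) (i : ℕ) :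
    tay (r • x) c i = r * tay x c i := by
  simp only [tay, Pi.smul_apply, smul_eq_mul]
  rw [Finset.mul_sum]
  refine Finset.sum_congr rfl fun k _ => ?_
  ring

lemma tay_at_zero {n : ℕ} (x : Fin (n + 1) → ℝ) (k : Fin (n + 1)) : tay x 0 (k : ℕ) = x k := by
  unfold tay
  rw [Finset.sum_eq_single k]
  · simp
  · intro l _ hl
    rcases Nat.lt_trichotomy (l : ℕ) (k : ℕ) with h | h | h
    · rw [Nat.choose_eq_zero_of_lt h]
      simp
    · exact absurd (Fin.ext h) hl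
    · rw [zero_pow (by omega)]
      simp
  · intro h
    exact absurd (Finset.mem_univ k) h

lemma coeff_eq {n : ℕ} (x : Fin (n + 1) → ℝ) (c : ℝ) (k : Fin (n + 1)) :
    x k = ∑ l ∈ Finset.range (n + 1), ((l.choose (k : ℕ) : ℕ) : ℝ) * tay x c l *
      (-c) ^ (l - (k : ℕ)) := by
  rw [← tay_shift, add_neg_cancel, tay_at_zero]

@[simp] lemma Lmap_inl {n : ℕ} (T : Fin n → ℝ) (D : ℕ → ℝ) (c : ℝ) (x : Fin (n + 1) → ℝ)
    (l : Fin n) : Lmap T D c x (Sum.inl l) = x l.succ / T l := rfl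

@[simp] lemma Lmap_inr {n : ℕ} (T : Fin n → ℝ) (D : ℕ → ℝ) (c : ℝ) (x : Fin (n + 1) → ℝ)
    (l : Fin (n + 1)) : Lmap T D c x (Sum.inr l) = tay x c l / D l := rfl

theorem Lmap_injective {n : ℕ} (T : Fin n → ℝ) (D : ℕ → ℝ) (hD : ∀ i, 0 < D i) (c : ℝ) :
    Function.Injective (Lmap T D c) := by
  intro x y hxy
  have h1 : ∀ l, l ∈ Finset.range (n + 1) → tay x c l = tay y c l := by
    intro l hl
    rw [Finset.mem_range] at hl
    have h2 : Lmap T D c x (Sum.inr ⟨l, hl⟩) = Lmap T D c y (Sum.inr ⟨l, hl⟩) := by rw [hxy]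
    rw [Lmap_inr, Lmap_inr] at h2
    have h3 := hD l
    field_simp at h2
    exact h2
  funext k
  rw [coeff_eq x c k, coeff_eq y c k]
  refine Finset.sum_congr rfl fun l hl => ?_
  rw [h1 l hl]

lemma abs_coord_le {ι : Type*} [Fintype ι] (v : EuclideanSpace ℝ ι) (i : ι) : |v i| ≤ ‖v‖ := by
  rw [← Real.norm_eq_abs]
  exact PiLp.norm_apply_le v i

lemma aux4 (n : ℕ) : n + (n + 1) ≤ 4 ^ (n + 1) := by
  induction n with
  | zero => norm_num
  | succ n ih =>
    rw [pow_succ]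
    omega

lemma norm_le_of_coord {n : ℕ} (v : EuclideanSpace ℝ (Fin n ⊕ Fin (n + 1))) {B : ℝ} (hB : 0 ≤ B)
    (h : ∀ i, |v i| ≤ 2 ^ (n + 1) * B) : ‖v‖ ≤ 4 ^ (n + 1) * B := by
  rw [EuclideanSpace.norm_eq]
  apply Real.sqrt_le_iff.2
  refine ⟨by positivity, ?_⟩
  have h1 : ∑ i, ‖v i‖ ^ 2 ≤ ∑ _i : Fin n ⊕ Fin (n + 1), (2 ^ (n + 1) * B) ^ 2 := by
    refine Finset.sum_le_sum fun i _ => ?_
    rw [Real.norm_eq_abs]
    exact pow_le_pow_left₀ (abs_nonneg _) (h i) 2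
  refine h1.trans ?_
  rw [Finset.sum_const, Finset.card_univ, Fintype.card_sum, Fintype.card_fin, Fintype.card_fin,
    nsmul_eq_mul]
  have h2 : ((n + (n + 1) : ℕ) : ℝ) ≤ 4 ^ (n + 1) := by
    exact_mod_cast aux4 n
  calc ((n + (n + 1) : ℕ) : ℝ) * (2 ^ (n + 1) * B) ^ 2
      ≤ 4 ^ (n + 1) * (2 ^ (n + 1) * B) ^ 2 := by gcongr
    _ = (4 ^ (n + 1) * B) ^ 2 := by
      rw [show (4 : ℝ) ^ (n + 1) = (2 ^ (n + 1)) ^ 2 by
        rw [← pow_mul, mul_comm, pow_mul]; norm_num]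
      ring

lemma sum_choose_le (n i : ℕ) :
    ∑ k ∈ Finset.range (n + 1), ((k.choose i : ℕ) : ℝ) ≤ 2 ^ (n + 1) := by
  have h : ∀ k : ℕ, ((k.choose i : ℕ) : ℝ) ≤ 2 ^ k := fun k => by
    exact_mod_cast Nat.choose_le_two_pow k i
  induction n with
  | zero =>
    rw [Finset.sum_range_one]
    have := h 0
    norm_num at this ⊢
    linarith
  | succ n ih =>
    rw [Finset.sum_range_succ, pow_succ (2 : ℝ) (n + 1)]
    have := h (n + 1)
    linarith

/-- Bound for a Taylor coefficient by those at a near point. -/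
lemma tay_bound {n : ℕ} (x : Fin (n + 1) → ℝ) {c c' ρ : ℝ} (hc : |c - c'| ≤ ρ) (i : ℕ) :
    |tay x c i| ≤ ∑ k ∈ Finset.range (n + 1), ((k.choose i : ℕ) : ℝ) *
      (|tay x c' k| * ρ ^ (k - i)) := by
  have h0 : c = c' + (c - c') := by ring
  rw [h0, tay_shift]
  refine (Finset.abs_sum_le_sum_abs _ _).trans (Finset.sum_le_sum fun k _ => ?_)
  rw [abs_mul, abs_mul, abs_pow, Nat.abs_cast, mul_assoc]
  gcongr

theorem Lmap_coord {n : ℕ} (D D' : ℕ → ℝ)
    (hD : ∀ i, 0 < D i) (hD' : ∀ i, 0 < D' i) {c c' ρ B : ℝ} (hc : |c - c'| ≤ ρ)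
    (h : ∀ i k, i ≤ k → k ≤ n → D' k * ρ ^ (k - i) ≤ D i) (z : Fin (n + 1) → ℝ)
    (hB : ∀ k, k ≤ n → |tay z c' k| ≤ D' k * B) (hB0 : 0 ≤ B) (i : ℕ) :
    |tay z c i / D i| ≤ 2 ^ (n + 1) * B := by
  have hρ : 0 ≤ ρ := (abs_nonneg _).trans hc
  rw [abs_div, abs_of_pos (hD i), div_le_iff₀ (hD i)]
  refine (tay_bound z hc i).trans ?_
  have h1 : ∀ k ∈ Finset.range (n + 1), ((k.choose i : ℕ) : ℝ) * (|tay z c' k| * ρ ^ (k - i)) ≤
      ((k.choose i : ℕ) : ℝ) * (B * D i) := by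
    intro k hk
    rw [Finset.mem_range] at hk
    rcases Nat.lt_or_ge k i with hki | hki
    · rw [Nat.choose_eq_zero_of_lt hki]
      simp
    · refine mul_le_mul_of_nonneg_left ?_ (Nat.cast_nonneg _)
      calc |tay z c' k| * ρ ^ (k - i) ≤ (D' k * B) * ρ ^ (k - i) := by
            gcongr
            exact hB k (by omega)
        _ = B * (D' k * ρ ^ (k - i)) := by ring
        _ ≤ B * D i := mul_le_mul_of_nonneg_left (h i k hki (by omega)) hB0
  refine (Finset.sum_le_sum h1).trans ?_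
  rw [← Finset.sum_mul, mul_assoc]
  have := hD i
  exact mul_le_mul_of_nonneg_right (sum_choose_le n i) (by positivity)

/-- comparison of the norm maps at two points -/
theorem Lmap_compare {n : ℕ} (T : Fin n → ℝ) (hT : ∀ l, 0 < T l) (D D' : ℕ → ℝ)
    (hD : ∀ i, 0 < D i) (hD' : ∀ i, 0 < D' i) {c c' ρ : ℝ} (hc : |c - c'| ≤ ρ)
    (h : ∀ i k, i ≤ k → k ≤ n → D' k * ρ ^ (k - i) ≤ D i) (z : Fin (n + 1) → ℝ) :
    ‖Lmap T D c z‖ ≤ 4 ^ (n + 1) * ‖Lmap T D' c' z‖ := by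
  refine norm_le_of_coord _ (norm_nonneg _) ?_
  rintro (l | i)
  · have h1 : |Lmap T D' c' z (Sum.inl l)| ≤ ‖Lmap T D' c' z‖ := abs_coord_le _ _
    rw [Lmap_inl] at h1 ⊢
    refine h1.trans ?_
    have : (1 : ℝ) ≤ 2 ^ (n + 1) := one_le_pow₀ (by norm_num)
    exact le_mul_of_one_le_left (norm_nonneg _) this
  · rw [Lmap_inr]
    refine Lmap_coord D D' hD hD' hc h z ?_ (norm_nonneg _) i
    intro k hk
    have h1 : |Lmap T D' c' z (Sum.inr ⟨k, by omega⟩)| ≤ ‖Lmap T D' c' z‖ := abs_coord_le _ _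
    rw [Lmap_inr, abs_div, abs_of_pos (hD' _), div_le_iff₀ (hD' _)] at h1
    rw [mul_comm]
    exact h1

/-- norm of a target -/
theorem Lmap_le {n : ℕ} (T : Fin n → ℝ) (hT : ∀ l, 0 < T l) (D : ℕ → ℝ)
    (hD : ∀ i, 0 < D i) {c ξ ρ : ℝ} (hc : |ξ - c| ≤ ρ)
    (h : ∀ i k, i ≤ k → k ≤ n → D k * ρ ^ (k - i) ≤ D i) (z : Fin (n + 1) → ℝ)
    (hz : ∀ l : Fin n, |z l.succ| ≤ T l) (hz2 : ∀ i, i ≤ n → |tay z ξ i| ≤ D i) :
    ‖Lmap T D c z‖ ≤ 4 ^ (n + 1) := by
  rw [← mul_one ((4 : ℝ) ^ (n + 1))]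
  refine norm_le_of_coord _ zero_le_one ?_
  rintro (l | i)
  · rw [Lmap_inl, abs_div, abs_of_pos (hT l), mul_one]
    have : (1 : ℝ) ≤ 2 ^ (n + 1) := one_le_pow₀ (by norm_num)
    exact ((div_le_one (hT l)).2 (hz l)).trans this
  · rw [Lmap_inr]
    refine Lmap_coord D D hD hD (c' := ξ) (ρ := ρ) (by rwa [abs_sub_comm]) h z ?_ zero_le_one i
    intro k hk
    rw [mul_one]
    exact hz2 k hk

/-- one coordinate -/
theorem le_norm_Lmap {n : ℕ} (T : Fin n → ℝ) (D : ℕ → ℝ) (hD : ∀ i, 0 < D i) (c : ℝ)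
    (z : Fin (n + 1) → ℝ) : |tay z c 0| / D 0 ≤ ‖Lmap T D c z‖ := by
  have h1 : |Lmap T D c z (Sum.inr 0)| ≤ ‖Lmap T D c z‖ := abs_coord_le _ _
  rw [Lmap_inr, abs_div] at h1
  simp only [Fin.val_zero, abs_of_pos (hD 0)] at h1
  exact h1

/-- value at a child, in terms of the renormalised coefficients -/
theorem tay_child {n : ℕ} (x : Fin (n + 1) → ℝ) {c ρ S : ℝ} (hS : S ≠ 0) (t : ℝ) :
    tay x (c + t * ρ) 0 = S * ∑ i ∈ Finset.range (n + 1), (tay x c i * ρ ^ i / S) * t ^ i := by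
  rw [tay_shift, Finset.mul_sum]
  refine Finset.sum_congr rfl fun i _ => ?_
  rw [Nat.choose_zero_right, Nat.sub_zero, mul_pow]
  field_simp
  simp

lemma abs_le_of_mem {z : ℤ} {ξ : ℝ} (h1 : (z : ℝ) ≤ ξ) (h2 : ξ ≤ z + 1) : |ξ| ≤ |(z : ℝ)| + 1 := by
  rw [abs_le]
  have h3 := neg_abs_le (z : ℝ)
  have h4 := le_abs_self (z : ℝ)
  constructor <;> linarith

lemma pow_le_aux {a : ℝ} {M : ℝ} (hM : 1 ≤ M) (ha : |a| ≤ M) {e n : ℕ} (he : e ≤ n) :
    |a ^ e| ≤ M ^ n := by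
  rw [abs_pow]
  exact (pow_le_pow_left₀ (abs_nonneg _) ha e).trans (pow_le_pow_right₀ hM he)

/-- the Taylor coefficients are bounded by the coefficients -/
theorem tay_le (n : ℕ) (z : ℤ) : ∃ C : ℝ, 1 ≤ C ∧ ∀ (x : Fin (n + 1) → ℝ) (H ξ : ℝ), 0 ≤ H →
    (z : ℝ) ≤ ξ → ξ ≤ z + 1 → (∀ l : Fin n, |x l.succ| ≤ H) → ∀ i, 1 ≤ i →
    |tay x ξ i| ≤ C * H := by
  have hM : (1 : ℝ) ≤ |(z : ℝ)| + 1 := by linarith [abs_nonneg (z : ℝ)]
  refine ⟨(n + 1) * 2 ^ n * (|(z : ℝ)| + 1) ^ n, ?_, ?_⟩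
  · have h1 : (1 : ℝ) ≤ 2 ^ n := one_le_pow₀ (by norm_num)
    have h2 : (1 : ℝ) ≤ (|(z : ℝ)| + 1) ^ n := one_le_pow₀ hM
    have h3 : (1 : ℝ) ≤ (n : ℝ) + 1 := by linarith [Nat.cast_nonneg (α := ℝ) n]
    exact one_le_mul_of_one_le_of_one_le (one_le_mul_of_one_le_of_one_le h3 h1) h2
  · intro x H ξ hH h1 h2 hx i hi
    unfold tay
    refine (Finset.abs_sum_le_sum_abs _ _).trans ?_
    have key : ∀ k ∈ (Finset.univ : Finset (Fin (n + 1))),
        |(((k : ℕ).choose i : ℕ) : ℝ) * x k * ξ ^ ((k : ℕ) - i)| ≤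
          2 ^ n * (|(z : ℝ)| + 1) ^ n * H := by
      intro k _
      rw [abs_mul, abs_mul, Nat.abs_cast]
      rcases Fin.eq_zero_or_eq_succ k with rfl | ⟨l, rfl⟩
      · rw [Fin.val_zero, Nat.choose_eq_zero_of_lt (by omega)]
        simp only [Nat.cast_zero, zero_mul]
        positivity
      · have h3 : ((((l.succ : Fin (n + 1)) : ℕ).choose i : ℕ) : ℝ) ≤ 2 ^ n := by
          have h4 := Nat.choose_le_two_pow ((l.succ : Fin (n + 1)) : ℕ) i
          have h5 : 2 ^ ((l.succ : Fin (n + 1)) : ℕ) ≤ 2 ^ n :=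
            Nat.pow_le_pow_right (by norm_num) (Nat.lt_succ_iff.1 l.succ.2)
          exact_mod_cast h4.trans h5
        have h6 : |ξ ^ (((l.succ : Fin (n + 1)) : ℕ) - i)| ≤ (|(z : ℝ)| + 1) ^ n :=
          pow_le_aux hM (abs_le_of_mem h1 h2) (by omega)
        calc ((((l.succ : Fin (n + 1)) : ℕ).choose i : ℕ) : ℝ) * |x l.succ| *
              |ξ ^ (((l.succ : Fin (n + 1)) : ℕ) - i)|
            ≤ 2 ^ n * H * (|(z : ℝ)| + 1) ^ n := by
              gcongr
              exact hx l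
          _ = 2 ^ n * (|(z : ℝ)| + 1) ^ n * H := by ring
    refine (Finset.sum_le_sum key).trans ?_
    rw [Finset.sum_const, Finset.card_univ, Fintype.card_fin, nsmul_eq_mul]
    push_cast
    apply le_of_eq
    ring

/-- the coefficients are bounded by the Taylor coefficients -/
theorem coeff_le_tay (n : ℕ) (z : ℤ) : ∃ C : ℝ, 1 ≤ C ∧ ∀ (x : Fin (n + 1) → ℝ) (a ξ : ℝ),
    (z : ℝ) ≤ ξ → ξ ≤ z + 1 → (∀ i, i ≤ n → |tay x ξ i| ≤ a) → ∀ k, |x k| ≤ C * a := by
  have hM : (1 : ℝ) ≤ |(z : ℝ)| + 1 := by linarith [abs_nonneg (z : ℝ)]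
  refine ⟨(n + 1) * 2 ^ n * (|(z : ℝ)| + 1) ^ n, ?_, ?_⟩
  · have h1 : (1 : ℝ) ≤ 2 ^ n := one_le_pow₀ (by norm_num)
    have h2 : (1 : ℝ) ≤ (|(z : ℝ)| + 1) ^ n := one_le_pow₀ hM
    have h3 : (1 : ℝ) ≤ (n : ℝ) + 1 := by linarith [Nat.cast_nonneg (α := ℝ) n]
    exact one_le_mul_of_one_le_of_one_le (one_le_mul_of_one_le_of_one_le h3 h1) h2
  · intro x a ξ h1 h2 hx k
    rw [coeff_eq x ξ k]
    refine (Finset.abs_sum_le_sum_abs _ _).trans ?_
    have ha : 0 ≤ a := (abs_nonneg _).trans (hx 0 (Nat.zero_le n))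
    have key : ∀ l ∈ Finset.range (n + 1),
        |((l.choose (k : ℕ) : ℕ) : ℝ) * tay x ξ l * (-ξ) ^ (l - (k : ℕ))| ≤
          2 ^ n * (|(z : ℝ)| + 1) ^ n * a := by
      intro l hl
      rw [Finset.mem_range] at hl
      rw [abs_mul, abs_mul, Nat.abs_cast]
      have h3 : ((l.choose (k : ℕ) : ℕ) : ℝ) ≤ 2 ^ n := by
        have h4 := Nat.choose_le_two_pow l (k : ℕ)
        have h5 : 2 ^ l ≤ 2 ^ n := Nat.pow_le_pow_right (by norm_num) (by omega)
        exact_mod_cast h4.trans h5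
      have h6 : |(-ξ) ^ (l - (k : ℕ))| ≤ (|(z : ℝ)| + 1) ^ n :=
        pow_le_aux hM (by rw [abs_neg]; exact abs_le_of_mem h1 h2) (by omega)
      calc ((l.choose (k : ℕ) : ℕ) : ℝ) * |tay x ξ l| * |(-ξ) ^ (l - (k : ℕ))|
          ≤ 2 ^ n * a * (|(z : ℝ)| + 1) ^ n := by
            gcongr
            exact hx l (by omega)
        _ = 2 ^ n * (|(z : ℝ)| + 1) ^ n * a := by ring
    refine (Finset.sum_le_sum key).trans ?_
    rw [Finset.sum_const, Finset.card_range, nsmul_eq_mul]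
    push_cast
    apply le_of_eq
    ring

/-- good steps: the renormalised polynomial has a large `j`-th coefficient and small higher
coefficients at `c` -/
theorem good_coeff {n m j : ℕ} (hm : n + 3 ≤ m) (hj : j ≤ n) (x : Fin (n + 1) → ℝ)
    {ξ c ρ S : ℝ} (hρ : 0 < ρ) (hS : 0 < S) (hc : |ξ - c| ≤ ρ)
    (h1 : ∀ i, i ≤ n → |tay x ξ i| * (2 ^ m * ρ) ^ i ≤ 2 ^ (j * m) * S)
    (h2 : S / 2 ≤ |tay x ξ j| * ρ ^ j) :
    1 / 4 ≤ |tay x c j * ρ ^ j / S| ∧
    ∀ i, j < i → i ≤ n → |tay x c i * ρ ^ i / S| ≤ 2 ^ (n + 1) / 2 ^ m := by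
  have h2m : (0 : ℝ) < 2 ^ m := by positivity
  -- the higher coefficients at `ξ`
  have h3 : ∀ k, j < k → k ≤ n → |tay x ξ k| * ρ ^ k ≤ S / 2 ^ m := by
    intro k hk hkn
    rw [le_div_iff₀ h2m]
    have h4 := h1 k hkn
    have h5 : (2 : ℝ) ^ (j * m) * 2 ^ m ≤ (2 ^ m) ^ k := by
      rw [← pow_add, ← pow_mul]
      apply pow_le_pow_right₀ (by norm_num)
      nlinarith
    rw [mul_pow] at h4
    have h6 : |tay x ξ k| * ρ ^ k * ((2 : ℝ) ^ (j * m) * 2 ^ m) ≤ 2 ^ (j * m) * S := by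
      calc |tay x ξ k| * ρ ^ k * ((2 : ℝ) ^ (j * m) * 2 ^ m)
          ≤ |tay x ξ k| * ρ ^ k * (2 ^ m) ^ k := by gcongr
        _ = |tay x ξ k| * ((2 ^ m) ^ k * ρ ^ k) := by ring
        _ ≤ _ := h4
    have h7 : (0 : ℝ) < 2 ^ (j * m) := by positivity
    nlinarith
  have h4 : ∀ i k, i ≤ k → j < k → k ≤ n →
      |tay x ξ k| * ρ ^ (k - i) * ρ ^ i ≤ S / 2 ^ m := by
    intro i k hik hk hkn
    rw [mul_assoc, ← pow_add, Nat.sub_add_cancel hik]
    exact h3 k hk hkn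
  constructor
  · -- the difference at the index `j`
    have h5 : |tay x c j - tay x ξ j| * ρ ^ j ≤ S / 4 := by
      have h6 : tay x c j - tay x ξ j = ∑ k ∈ (Finset.range (n + 1)).erase j,
          ((k.choose j : ℕ) : ℝ) * tay x ξ k * (c - ξ) ^ (k - j) := by
        have h7 : c = ξ + (c - ξ) := by ring
        conv_lhs => rw [h7, tay_shift]
        rw [← Finset.add_sum_erase _ _ (Finset.mem_range.2 (show j < n + 1 by omega))]
        simp
      rw [h6]
      have h8 : |∑ k ∈ (Finset.range (n + 1)).erase j,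
          ((k.choose j : ℕ) : ℝ) * tay x ξ k * (c - ξ) ^ (k - j)| * ρ ^ j ≤
          ∑ k ∈ (Finset.range (n + 1)).erase j, ((k.choose j : ℕ) : ℝ) * (S / 2 ^ m) := by
        rw [← abs_of_pos (show 0 < ρ ^ j by positivity), ← abs_mul, Finset.sum_mul]
        refine (Finset.abs_sum_le_sum_abs _ _).trans (Finset.sum_le_sum fun k hk => ?_)
        rw [Finset.mem_erase, Finset.mem_range] at hk
        rw [abs_mul, abs_mul, abs_mul, Nat.abs_cast, abs_of_pos (show 0 < ρ ^ j by positivity)]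
        rcases Nat.lt_or_ge k j with hkj | hkj
        · rw [Nat.choose_eq_zero_of_lt hkj]
          simp
        · have h9 : |(c - ξ) ^ (k - j)| ≤ ρ ^ (k - j) := by
            rw [abs_pow, abs_sub_comm]
            exact pow_le_pow_left₀ (abs_nonneg _) hc _
          calc ((k.choose j : ℕ) : ℝ) * |tay x ξ k| * |(c - ξ) ^ (k - j)| * ρ ^ j
              ≤ ((k.choose j : ℕ) : ℝ) * |tay x ξ k| * ρ ^ (k - j) * ρ ^ j := by gcongr
            _ = ((k.choose j : ℕ) : ℝ) * (|tay x ξ k| * ρ ^ (k - j) * ρ ^ j) := by ring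
            _ ≤ _ := mul_le_mul_of_nonneg_left (h4 j k hkj (by omega) (by omega))
              (Nat.cast_nonneg _)
      refine h8.trans ?_
      rw [← Finset.sum_mul]
      have h9 : ∑ k ∈ (Finset.range (n + 1)).erase j, ((k.choose j : ℕ) : ℝ) ≤ 2 ^ (n + 1) := by
        refine le_trans (Finset.sum_le_sum_of_subset_of_nonneg (Finset.erase_subset _ _) ?_)
          (sum_choose_le n j)
        intro k _ _
        exact Nat.cast_nonneg _
      have h10 : (2 : ℝ) ^ (n + 1) * 4 ≤ 2 ^ m := by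
        rw [show (4 : ℝ) = 2 ^ 2 by norm_num, ← pow_add]
        exact pow_le_pow_right₀ (by norm_num) (by omega)
      calc (∑ k ∈ (Finset.range (n + 1)).erase j, ((k.choose j : ℕ) : ℝ)) * (S / 2 ^ m)
          ≤ 2 ^ (n + 1) * (S / 2 ^ m) := by gcongr
        _ ≤ S / 4 := by
          rw [← mul_div_assoc, div_le_div_iff₀ h2m (by norm_num)]
          nlinarith
    have h6 : |tay x ξ j| ≤ |tay x c j| + |tay x c j - tay x ξ j| := by
      have := abs_sub_abs_le_abs_sub (tay x ξ j) (tay x c j)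
      rw [abs_sub_comm] at this
      linarith
    have h7 : |tay x ξ j| * ρ ^ j ≤ |tay x c j| * ρ ^ j + |tay x c j - tay x ξ j| * ρ ^ j := by
      rw [← add_mul]
      gcongr
    rw [abs_div, abs_of_pos hS, abs_mul, abs_of_pos (show 0 < ρ ^ j by positivity),
      le_div_iff₀ hS]
    linarith
  · intro i hi hin
    rw [abs_div, abs_of_pos hS, abs_mul, abs_of_pos (show 0 < ρ ^ i by positivity),
      div_le_div_iff₀ hS h2m]
    have h5 := tay_bound x (c := c) (c' := ξ) (ρ := ρ) (by rwa [abs_sub_comm]) i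
    have h6 : |tay x c i| * ρ ^ i ≤ 2 ^ (n + 1) * (S / 2 ^ m) := by
      calc |tay x c i| * ρ ^ i ≤ (∑ k ∈ Finset.range (n + 1), ((k.choose i : ℕ) : ℝ) *
            (|tay x ξ k| * ρ ^ (k - i))) * ρ ^ i := by gcongr
        _ = ∑ k ∈ Finset.range (n + 1), ((k.choose i : ℕ) : ℝ) *
            (|tay x ξ k| * ρ ^ (k - i) * ρ ^ i) := by
            rw [Finset.sum_mul]
            refine Finset.sum_congr rfl fun k _ => ?_
            ring
        _ ≤ ∑ k ∈ Finset.range (n + 1), ((k.choose i : ℕ) : ℝ) * (S / 2 ^ m) := by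
            refine Finset.sum_le_sum fun k hk => ?_
            rw [Finset.mem_range] at hk
            rcases Nat.lt_or_ge k i with hki | hki
            · rw [Nat.choose_eq_zero_of_lt hki]
              simp
            · exact mul_le_mul_of_nonneg_left (h4 i k hki (by omega) (by omega))
                (Nat.cast_nonneg _)
        _ ≤ 2 ^ (n + 1) * (S / 2 ^ m) := by
            rw [← Finset.sum_mul]
            exact mul_le_mul_of_nonneg_right (sum_choose_le n i) (by positivity)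
    rw [← mul_div_assoc, le_div_iff₀ h2m] at h6
    exact h6

/-- a priori bound at the root -/
theorem root_bound (n : ℕ) (z : ℤ) : ∃ C : ℝ, 1 ≤ C ∧ ∀ (T : Fin n → ℝ) (S : ℝ),
    (∀ l, 1 ≤ T l) → 1 ≤ S → ∀ W : Submodule ℚ (Fin (n + 1) → ℚ),
    (covol (Lmap T (fun _ => S) (z : ℝ)) W)⁻¹ ≤ C * (S * ∏ l, T l) := by
  have hM : (1 : ℝ) ≤ |(z : ℝ)| + 1 := by linarith [abs_nonneg (z : ℝ)]
  set M := |(z : ℝ)| + 1 with hMdef
  have hMn : (1 : ℝ) ≤ M ^ n := one_le_pow₀ hM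
  set K : ℝ := 4 ^ (n + 1) * M ^ n with hK
  have hK1 : 1 ≤ K := one_le_mul_of_one_le_of_one_le (one_le_pow₀ (by norm_num)) hMn
  refine ⟨K ^ (n + 1), one_le_pow₀ hK1, ?_⟩
  intro T S hT hS W
  have hT0 : ∀ l, 0 < T l := fun l => lt_of_lt_of_le one_pos (hT l)
  have hS0 : 0 < S := lt_of_lt_of_le one_pos hS
  have hinj : Function.Injective (Lmap T (fun _ => S) (z : ℝ)) :=
    Lmap_injective T _ (fun _ => hS0) _
  -- the standard basis
  have hb : qspan (fun i : Fin (n + 1) => (Pi.single i 1 : Fin (n + 1) → ℤ)) = ⊤ := by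
    rw [eq_top_iff]
    intro v _
    have h1 : v = ∑ i, v i • toQ (Pi.single i 1 : Fin (n + 1) → ℤ) := by
      funext j
      rw [Finset.sum_apply, Finset.sum_eq_single j]
      · simp [toQ]
      · intro i _ hi
        simp [toQ, hi.symm]
      · intro h
        exact absurd (Finset.mem_univ j) h
    rw [h1]
    refine Submodule.sum_mem _ fun i _ => Submodule.smul_mem _ _ (Submodule.subset_span ?_)
    exact ⟨i, rfl⟩
  have hbK : ∀ i : Fin (n + 1), ‖Lmap T (fun _ => S) (z : ℝ)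
      (toR (Pi.single i 1 : Fin (n + 1) → ℤ))‖ ≤ K := by
    intro i
    refine norm_le_of_coord _ (by positivity) ?_
    have h1 : ∀ k, |toR (Pi.single i 1 : Fin (n + 1) → ℤ) k| ≤ 1 := by
      intro k
      by_cases hk : k = i
      · subst hk
        simp [toR]
      · simp [toR, hk]
    rintro (l | k)
    · rw [Lmap_inl, abs_div, abs_of_pos (hT0 l)]
      have h2 : (1 : ℝ) ≤ 2 ^ (n + 1) := one_le_pow₀ (by norm_num)
      calc |toR (Pi.single i 1 : Fin (n + 1) → ℤ) l.succ| / T l ≤ 1 / 1 := by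
            gcongr
            · exact h1 _
            · exact hT l
        _ ≤ 2 ^ (n + 1) * M ^ n := by
            rw [div_one]
            exact one_le_mul_of_one_le_of_one_le h2 hMn
    · rw [Lmap_inr, abs_div, abs_of_pos hS0]
      refine (div_le_self (abs_nonneg _) hS).trans ?_
      have h2 : tay (toR (Pi.single i 1 : Fin (n + 1) → ℤ)) (z : ℝ) k =
          (((i : ℕ).choose (k : ℕ) : ℕ) : ℝ) * (z : ℝ) ^ ((i : ℕ) - (k : ℕ)) := by
        unfold tay
        rw [Finset.sum_eq_single i]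
        · simp [toR]
        · intro l _ hl
          simp [toR, hl]
        · intro h
          exact absurd (Finset.mem_univ i) h
      rw [h2, abs_mul, Nat.abs_cast]
      have h3 : (((i : ℕ).choose (k : ℕ) : ℕ) : ℝ) ≤ 2 ^ (n + 1) := by
        have h4 := Nat.choose_le_two_pow (i : ℕ) (k : ℕ)
        have h5 : 2 ^ (i : ℕ) ≤ 2 ^ (n + 1) := Nat.pow_le_pow_right (by norm_num) (by omega)
        exact_mod_cast h4.trans h5
      have h6 : |(z : ℝ) ^ ((i : ℕ) - (k : ℕ))| ≤ M ^ n :=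
        pow_le_aux hM (by linarith) (by omega)
      gcongr
  have hcov := covol_pos hinj W
  have htop := covol_top_le hinj hK1 (fun i : Fin (n + 1) => (Pi.single i 1 : Fin (n + 1) → ℤ))
    hb hbK W
  -- the determinant
  let L₀ : (Fin (n + 1) → ℝ) →ₗ[ℝ] EuclideanSpace ℝ (Fin (n + 1)) :=
    { toFun := fun x => WithLp.toLp 2 (Fin.cons (tay x (z : ℝ) 0 / S) (fun l : Fin n => x l.succ / T l))
      map_add' := by
        intro x y
        ext i
        refine Fin.cases ?_ (fun l => ?_) i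
        · change tay (x + y) (z : ℝ) 0 / S = tay x (z : ℝ) 0 / S + tay y (z : ℝ) 0 / S
          rw [tay_add, add_div]
        · simp [add_div]
      map_smul' := by
        intro r x
        ext i
        refine Fin.cases ?_ (fun l => ?_) i
        · change tay (r • x) (z : ℝ) 0 / S = r * (tay x (z : ℝ) 0 / S)
          rw [tay_smul, mul_div_assoc]
        · simp [mul_div_assoc] }
  have hL0 : ∀ x, ‖L₀ x‖ ≤ ‖Lmap T (fun _ => S) (z : ℝ) x‖ := by
    intro x
    rw [EuclideanSpace.norm_eq, EuclideanSpace.norm_eq]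
    apply Real.sqrt_le_sqrt
    rw [Fin.sum_univ_succ, Fintype.sum_sum_type, Fin.sum_univ_succ (n := n)]
    have h1 : L₀ x 0 = Lmap T (fun _ => S) (z : ℝ) x (Sum.inr 0) := rfl
    have h2 : ∀ l : Fin n, L₀ x l.succ = Lmap T (fun _ => S) (z : ℝ) x (Sum.inl l) :=
      fun l => rfl
    rw [h1]
    simp only [h2]
    have h3 : 0 ≤ ∑ i : Fin n, ‖Lmap T (fun _ => S) (z : ℝ) x (Sum.inr i.succ)‖ ^ 2 := by
      positivity
    linarith
  have hdet := le_covol_top hinj L₀ hL0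
  have hdet2 : (Matrix.of fun i j : Fin (n + 1) => L₀ (Pi.single i 1) j).det =
      (S * ∏ l, T l)⁻¹ := by
    rw [Matrix.det_of_isLowerTriangular]
    · rw [Fin.prod_univ_succ, mul_inv, ← Finset.prod_inv_distrib]
      congr 1
      · change tay (Pi.single 0 1) (z : ℝ) 0 / S = S⁻¹
        rw [tay_zero, Finset.sum_eq_single 0]
        · simp
        · intro i _ hi
          simp [hi]
        · intro h
          exact absurd (Finset.mem_univ _) h
      · refine Finset.prod_congr rfl fun l _ => ?_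
        change (Pi.single l.succ 1 : Fin (n + 1) → ℝ) l.succ / T l = (T l)⁻¹
        simp
    · intro i j hij
      have hij' : i < j := hij
      have hj : j ≠ 0 := by
        rintro rfl
        exact absurd hij' (Fin.not_lt_zero i)
      obtain ⟨l, rfl⟩ := Fin.exists_succ_eq.2 hj
      change (Pi.single i 1 : Fin (n + 1) → ℝ) l.succ / T l = 0
      rw [Pi.single_apply, if_neg hij'.ne', zero_div]
  rw [hdet2] at hdet
  have hprod : 0 < S * ∏ l, T l := mul_pos hS0 (Finset.prod_pos fun l _ => hT0 l)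
  rw [abs_of_pos (inv_pos.2 hprod)] at hdet
  have h1 : (S * ∏ l, T l)⁻¹ ≤ covol (Lmap T (fun _ => S) (z : ℝ)) W * K ^ (n + 1) :=
    hdet.trans htop
  have hKp : 0 < K ^ (n + 1) := by positivity
  rw [inv_le_iff_one_le_mul₀ hcov]
  rw [inv_le_iff_one_le_mul₀ hprod] at h1
  calc (1 : ℝ) ≤ covol (Lmap T (fun _ => S) (z : ℝ)) W * K ^ (n + 1) * (S * ∏ l, T l) := h1
    _ = K ^ (n + 1) * (S * ∏ l, T l) * covol (Lmap T (fun _ => S) (z : ℝ)) W := by ring

end

end Pool.Agent.Helper53.MF
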